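import Pool.Agent.Helper64.MC.Types
import Pool.Agent.Helper27.MC.Base2

set_option autoImplicit false
set_option linter.unusedSectionVars false

namespace Pool.Agent.Helper20.MC

open Pool.Agent.Helper27.MC Pool.Agent.Helper51.MC Pool.Agent.Helper88.MC Pool.Agent.Helper64.MC

/-- F2': three pairwise nonadjacent `S`-neighbours of an `A`-vertex are free. -/
theorem F2P : Pool.Agent.Helper27.MC.ST_F2P := by
  intro V _ _ G _ hG c j hO hj a s1 s2 s3 ha a1 a2 a3 n12 n13 n23 t1 t2 t3 m12 m13 m23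
  have hj1 : (1 : ℤ) ≤ (j : ℤ) := by exact_mod_cast hj
  have na : ∀ w, ¬ Rm G c a w := nomate ha.2
  have f12 : sf G c s1 s2 = 0 := sf_nadj m12
  have f13 : sf G c s1 s3 = 0 := sf_nadj m13
  have f23 : sf G c s2 s3 = 0 := sf_nadj m23
  have ds : ∀ s, c s = false → ∀ w, c w = true → w ≠ s := by
    rintro s hs w hw rfl
    rw [hs] at hw
    cases hw
  have key : ∀ w, w ≠ a → c w = true → G.Adj s1 w →
      (3 - 2 * (mu G c w : ℤ)) - 2 * (sf G c w s2 + sf G c w s3) ≤ 1 → False := by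
    intro w hwa hw h1 h2
    have h3 := Ppos hG hO [a, w, s1, s2, s3] (by
      have e1 := ds s1 t1.1 w hw
      have e2 := ds s2 t2.1 w hw
      have e3 := ds s3 t3.1 w hw
      have e4 := ds s1 t1.1 a ha.1
      have e5 := ds s2 t2.1 a ha.1
      have e6 := ds s3 t3.1 a ha.1
      simp [hwa.symm, n12, n13, n23, e1, e2, e3, e4, e5, e6]) 1
      (by simp [dl_cons, dl_nil, ha.1, hw, t1.1, t2.1, t3.1]) hj1
    simp only [cl_cons, cl_nil, List.map_cons, List.map_nil, List.sum_cons, List.sum_nil, ha.2,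
      t1.2, t2.2, t3.2, f12, f13, f23] at h3
    have g1 : sf G c a s1 = 1 := sf_adj a1 (by rw [ha.1, t1.1]; decide)
    have g2 : sf G c a s2 = 1 := sf_adj a2 (by rw [ha.1, t2.1]; decide)
    have g3 : sf G c a s3 = 1 := sf_adj a3 (by rw [ha.1, t3.1]; decide)
    have g4 : 0 ≤ sf G c a w := sf_nrm (na w)
    have g5 : sf G c w s1 = 1 := sf_adj h1.symm (by rw [hw, t1.1]; decide)
    push_cast at h3
    linarith
  refine ⟨⟨t1, ?_⟩, ?_⟩
  · intro w h1 hw
    refine ⟨hw, ?_⟩
    by_contra hm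
    have h2 := hO.mu1 w
    have h3 : mu G c w = 1 := by omega
    have hwa : w ≠ a := by
      rintro rfl
      exact hm ha.2
    refine key w hwa hw h1 ?_
    rw [h3]
    have g1 : 0 ≤ sf G c w s2 := sf_ge (by rw [hw, t2.1]; decide)
    have g2 : 0 ≤ sf G c w s3 := sf_ge (by rw [hw, t3.1]; decide)
    push_cast
    linarith
  · intro b hb h1 h2
    cases hcb : c b with
    | false =>
      have e1 : Rm G c b s1 := ⟨h1, by rw [hcb, t1.1]⟩
      have e2 : Rm G c b s2 := ⟨h2, by rw [hcb, t2.1]⟩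
      exact n12 (rm_uniq (hO.mu1 b) e1 e2)
    | true =>
      refine key b hb hcb h1.symm ?_
      have g1 : sf G c b s2 = 1 := sf_adj h2 (by rw [hcb, t2.1]; decide)
      have g2 : 0 ≤ sf G c b s3 := sf_ge (by rw [hcb, t3.1]; decide)
      have g3 : (0 : ℤ) ≤ (mu G c b : ℤ) := by positivity
      rw [g1]
      linarith

end Pool.Agent.Helper20.MC
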