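import Pool.Agent.Helper64.MC.St1

set_option autoImplicit false
set_option linter.unusedSectionVars false

namespace Pool.Agent.Helper20.MC

open Pool.Agent.Helper27.MC Pool.Agent.Helper51.MC Pool.Agent.Helper88.MC Pool.Agent.Helper64.MC

section

variable {V : Type} [Fintype V] [DecidableEq V] {G : SimpleGraph V} [DecidableRel G.Adj]
variable {c : V → Bool} {a s1 s2 s3 v1 v2 v3 p1 p2 p3 : V}

theorem ne_of_col {x y : V} (hx : c x = true) (hy : c y = false) : x ≠ y := by
  rintro rfl
  rw [hx] at hy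
  cases hy

theorem sw_mu (hm : ∀ v, mu G c v ≤ 1) (h : Hub3 G c a s1 s2 s3 v1 v2 v3 p1 p2 p3)
    (q1 : tA G c p1) (q2 : tA G c p2) (q3 : tA G c p3) (d12 : p1 ≠ p2) (d13 : p1 ≠ p3)
    (d23 : p2 ≠ p3) (v : V) : mu G (flp c {a, s1, s2, s3}) v ≤ 1 := by
  have ca := h.av.ca
  have c1 := h.av.cx
  have c2 := h.av.cy
  have c3 := h.av.cz
  have n12 := h.av.n3.xy
  have n13 := h.av.n3.xz
  have n23 := h.av.n3.yz
  have mX : ∀ w, w ∈ ({a, s1, s2, s3} : Finset V) ↔ w = a ∨ w = s1 ∨ w = s2 ∨ w = s3 := by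
    intro w
    simp only [Finset.mem_insert, Finset.mem_singleton]
  have pa1 : p1 ≠ a := h.h1.n3.yz.symm
  have pa2 : p2 ≠ a := h.h2.n3.yz.symm
  have pa3 : p3 ≠ a := h.h3.n3.yz.symm
  -- a neighbour in the set of a true vertex outside of it
  have key : ∀ v, v ∉ ({a, s1, s2, s3} : Finset V) → ∀ w, Rm G (flp c {a, s1, s2, s3}) v w →
      Rm G c v w ∨ (v = p1 ∧ w = s1) ∨ (v = p2 ∧ w = s2) ∨ (v = p3 ∧ w = s3) := by
    intro v hv w hw
    rcases (rm_out hv w).1 hw with ⟨-, h1⟩ | ⟨h1, h2, h3⟩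
    · exact Or.inl h1
    right
    rw [mX] at hv h1
    rcases h1 with rfl | rfl | rfl | rfl
    · exfalso
      have h4 := (h.av.n3.nb v).1 h2.symm
      tauto
    · left
      rcases (h.h1.n3.nb v).1 h2.symm with rfl | rfl | rfl
      · rw [h.h1.cs, h.h1.cm] at h3
        exact absurd rfl h3
      · exact absurd (Or.inl rfl) hv
      · exact ⟨rfl, rfl⟩
    · right
      left
      rcases (h.h2.n3.nb v).1 h2.symm with rfl | rfl | rfl
      · rw [h.h2.cs, h.h2.cm] at h3
        exact absurd rfl h3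
      · exact absurd (Or.inl rfl) hv
      · exact ⟨rfl, rfl⟩
    · right
      right
      rcases (h.h3.n3.nb v).1 h2.symm with rfl | rfl | rfl
      · rw [h.h3.cs, h.h3.cm] at h3
        exact absurd rfl h3
      · exact absurd (Or.inl rfl) hv
      · exact ⟨rfl, rfl⟩
  by_cases hv : v ∈ ({a, s1, s2, s3} : Finset V)
  · have hv' := (mX v).1 hv
    rcases hv' with rfl | rfl | rfl | rfl
    · -- the hub
      refine mu_le_one (z := s1) fun y hy => ?_
      rcases (rm_in hv y).1 hy with ⟨-, h1⟩ | ⟨h1, h2, -⟩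
      · exfalso
        have h2 := (h.av.n3.nb y).1 h1.1
        have h3 := h1.2
        rcases h2 with rfl | rfl | rfl
        · rw [c1, ca] at h3
          cases h3
        · rw [c2, ca] at h3
          cases h3
        · rw [c3, ca] at h3
          cases h3
      · exfalso
        rw [mX] at h1
        have h3 := (h.av.n3.nb y).1 h2
        tauto
    · refine mu_le_one (z := p1) fun y hy => ?_
      rcases (rm_in hv y).1 hy with ⟨h1, h2⟩ | ⟨h1, h2, h3⟩
      · exfalso
        rw [mX] at h1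
        rcases h1 with rfl | rfl | rfl | rfl
        · have := h2.2
          rw [ca, h.h1.cs] at this
          cases this
        · exact G.loopless.irrefl _ h2.1
        · exact h.n12 h2
        · exact h.n13 h2
      · rcases (h.h1.n3.nb y).1 h2 with rfl | rfl | rfl
        · rw [h.h1.cs, h.h1.cm] at h3
          exact absurd rfl h3
        · exact absurd ((mX _).2 (Or.inl rfl)) h1
        · rfl
    · refine mu_le_one (z := p2) fun y hy => ?_
      rcases (rm_in hv y).1 hy with ⟨h1, h2⟩ | ⟨h1, h2, h3⟩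
      · exfalso
        rw [mX] at h1
        rcases h1 with rfl | rfl | rfl | rfl
        · have := h2.2
          rw [ca, h.h2.cs] at this
          cases this
        · exact h.n12 ⟨h2.1.symm, h2.2.symm⟩
        · exact G.loopless.irrefl _ h2.1
        · exact h.n23 h2
      · rcases (h.h2.n3.nb y).1 h2 with rfl | rfl | rfl
        · rw [h.h2.cs, h.h2.cm] at h3
          exact absurd rfl h3
        · exact absurd ((mX _).2 (Or.inl rfl)) h1
        · rfl
    · refine mu_le_one (z := p3) fun y hy => ?_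
      rcases (rm_in hv y).1 hy with ⟨h1, h2⟩ | ⟨h1, h2, h3⟩
      · exfalso
        rw [mX] at h1
        rcases h1 with rfl | rfl | rfl | rfl
        · have := h2.2
          rw [ca, h.h3.cs] at this
          cases this
        · exact h.n13 ⟨h2.1.symm, h2.2.symm⟩
        · exact h.n23 ⟨h2.1.symm, h2.2.symm⟩
        · exact G.loopless.irrefl _ h2.1
      · rcases (h.h3.n3.nb y).1 h2 with rfl | rfl | rfl
        · rw [h.h3.cs, h.h3.cm] at h3
          exact absurd rfl h3
        · exact absurd ((mX _).2 (Or.inl rfl)) h1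
        · rfl
  · by_cases e1 : v = p1
    · refine mu_le_one (z := s1) fun y hy => ?_
      rcases key v hv y hy with h1 | h1 | h1 | h1
      · exact absurd h1 (nomate (by rw [e1]; exact q1.2) y)
      · exact h1.2
      · exact absurd (e1.symm.trans h1.1) d12
      · exact absurd (e1.symm.trans h1.1) d13
    by_cases e2 : v = p2
    · refine mu_le_one (z := s2) fun y hy => ?_
      rcases key v hv y hy with h1 | h1 | h1 | h1
      · exact absurd h1 (nomate (by rw [e2]; exact q2.2) y)
      · exact absurd h1.1 e1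
      · exact h1.2
      · exact absurd (e2.symm.trans h1.1) d23
    by_cases e3 : v = p3
    · refine mu_le_one (z := s3) fun y hy => ?_
      rcases key v hv y hy with h1 | h1 | h1 | h1
      · exact absurd h1 (nomate (by rw [e3]; exact q3.2) y)
      · exact absurd h1.1 e1
      · exact absurd h1.1 e2
      · exact h1.2
    · refine (mu_mono fun y hy => ?_).trans (hm v)
      rcases key v hv y hy with h1 | h1 | h1 | h1
      · exact h1
      · exact absurd h1.1 e1
      · exact absurd h1.1 e2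
      · exact absurd h1.1 e3

end

/-- SW, from ZERO and H3. -/
theorem SW_of (hZ : ST_ZERO) (hH : ST_H3) : ST_SW := by
  intro V _ _ G _ hG c hO a s1 s2 s3 v1 v2 v3 p1 p2 p3 h
  obtain ⟨⟨q1, q2, q3⟩, d12, d13, d23⟩ := hH V G hG c 1 le_rfl hO a s1 s2 s3 v1 v2 v3 p1 p2 p3 h
  have ca := h.av.ca
  have c1 := h.av.cx
  have c2 := h.av.cy
  have c3 := h.av.cz
  have n12 := h.av.n3.xy
  have n13 := h.av.n3.xz
  have n23 := h.av.n3.yz
  have e1 := ne_of_col ca c1
  have e2 := ne_of_col ca c2
  have e3 := ne_of_col ca c3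
  have hnd : ([a, s1, s2, s3] : List V).Nodup := by simp [e1, e2, e3, n12, n13, n23]
  have hX : ([a, s1, s2, s3] : List V).toFinset = {a, s1, s2, s3} := by simp
  refine (hZ V G hG c 1 hO).2.1 {a, s1, s2, s3} ?_ ?_ (sw_mu hO.mu1 h q1 q2 q3 d12 d13 d23)
  · rw [← hX, cost_list c _ hnd]
    have m1 : ∀ x y, Rm G c x y → mu G c x = 1 := fun x y hxy => mu_of_rm hO.mu1 hxy
    have r1 : mu G c s1 = 1 := m1 s1 v1 ⟨(h.h1.n3.nb v1).2 (Or.inl rfl), by rw [h.h1.cm, h.h1.cs]⟩
    have r2 : mu G c s2 = 1 := m1 s2 v2 ⟨(h.h2.n3.nb v2).2 (Or.inl rfl), by rw [h.h2.cm, h.h2.cs]⟩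
    have r3 : mu G c s3 = 1 := m1 s3 v3 ⟨(h.h3.n3.nb v3).2 (Or.inl rfl), by rw [h.h3.cm, h.h3.cs]⟩
    simp only [cl_cons, cl_nil, List.map_cons, List.map_nil, List.sum_cons, List.sum_nil, r1, r2, r3]
    have g1 : sf G c a s1 = 1 := sf_adj ((h.av.n3.nb s1).2 (Or.inl rfl)) (by rw [ca, c1]; decide)
    have g2 : sf G c a s2 = 1 := sf_adj ((h.av.n3.nb s2).2 (Or.inr (Or.inl rfl)))
      (by rw [ca, c2]; decide)
    have g3 : sf G c a s3 = 1 := sf_adj ((h.av.n3.nb s3).2 (Or.inr (Or.inr rfl)))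
      (by rw [ca, c3]; decide)
    have f12 : 0 ≤ sf G c s1 s2 := sf_nrm h.n12
    have f13 : 0 ≤ sf G c s1 s3 := sf_nrm h.n13
    have f23 : 0 ≤ sf G c s2 s3 := sf_nrm h.n23
    have g4 : (0 : ℤ) ≤ (mu G c a : ℤ) := by positivity
    push_cast
    linarith
  · rw [← hX, dd_list c _ hnd]
    simp [dl_cons, dl_nil, ca, c1, c2, c3]

end Pool.Agent.Helper20.MC
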